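import Pool.Agent.U569.APL.MonoT
import Pool.Agent.Results.MP_b9fedf_ag.OneTorusSuffices

/-!
# Maps from one complex torus for the tuples of monomials near almost all members of families formed from arbitrary sets

Let `I 1, …, I s` be nonempty sets of variables among `x_0, …, x_n`, and `r = ∑ (|I i| - 1)` (`fdim I`). The tuples of monomials
`a 1, …, a s` of degree `d`, `a i` in the variables from `I i`, are given by `r + 1` coordinates: the degree `d`, and the exponents in
`a i` of all the variables from `I i` but one. The starting result `OneTorusSuffices` says that the proportion of the tuples of
degree `d` with the property `Good` below tends to `1` for `d → ∞`. Here: for all `ε > 0`, all large moduli `q` and all families of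
vectors of `r + 1` residues modulo `q` with small Fourier coefficients (only finitely many of them need to be small,
`SmallCoefficients L η`, where `L` and `η` depend on `ε` and on the `I i` only), and for all but at most `ε |S|` members
`v = c + y` of the family `S`, the property `Good` holds for ALL tuples of monomials of all degrees whose coordinates are at a
distance of at most `κ |v 0|` from those of `v` (`v 0` stands for the degree), where `κ > 0` depends on `ε` and on the `I i` only:
a cube of positive relative size around the member (`NearMost`).

Examples (`FlatExamples`), with Fourier coefficients at most `P ^ (-δ / 8)` modulo a large prime `P`: the values of bilinear maps on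
ARBITRARY sets, all products of elements of two ARBITRARY sets in the field of `P ^ (r + 1)` elements, both plus arbitrary functions
of the one and of the other element, polynomials on products of ARBITRARY sets, polynomials on subgroups.

`Good`: for all one-dimensional complex tori `E` and all the projective varieties given by linear combinations of the monomials and of
the `x_j ^ d` the images of `E` are dense in the Zariski closure of the union of the entire curves, and the variety is hyperbolic
if all maps from `E` are constant, with the combinatorial criterion of the starting file.

Proof: the tuples are good if certain determinants, which are affine in each of the free exponents, are not small. The number of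
the points of a grid where these functions are small is bounded in `Pool/Agent/U449/BV/PW.lean` (helper449), and each small cube
contains few members of the family (`Pool/Agent/U569/APL/Box.lean`, `Mono.lean`, `MonoT.lean`).
-/

set_option autoImplicit false

namespace Pool.Agent.Results.MP_b9fedf_ag.ArbitrarySets

open MvPolynomial Pool.Agent.R869.Wd Pool.Agent.H159R3.GGLLog
open Pool.Agent.Results.MP_b9fedf_ag.OneTorusSuffices
open Pool.Agent.U569.APL (NearMost FlatExamples nearMost_typI flatExamples)

/-- The property of the starting result: `OneTorus F` for all projective varieties given by `m` linear combinations of the monomials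
`a i` and of the `x_j ^ d`, and `LooseCriterion F` for all hypersurfaces given by such a linear combination. -/
def Good {n s : ℕ} (_I : Fin s → Finset (Fin (n + 1))) (d : ℕ) (a : Fin s → (Fin (n + 1) →₀ ℕ)) : Prop :=
  (∀ (m : ℕ) (F : Fin m → MvPolynomial (Fin (n + 1)) ℂ),
    (∀ e, (F e).support ⊆ withPowers d a) → OneTorus F) ∧
  ∀ F : MvPolynomial (Fin (n + 1)) ℂ, F.support ⊆ withPowers d a → LooseCriterion F

theorem good_of_typ {n s : ℕ} {I : Fin s → Finset (Fin (n + 1))} {d : ℕ} {a : Fin s → (Fin (n + 1) →₀ ℕ)}
    (hty : TypI I d a) : Good I d a := by
  classical
  refine ⟨fun m F hFT L => ?_, fun F hF L J => ?_⟩
  · obtain ⟨s', N, hg⟩ := hty.good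
    exact spE_eq (hg.sys hFT ∅) L
  · have h1 := hty.crit hF J
    tfae_have 1 ↔ 2 := hty.critE hF L J
    tfae_have 1 ↔ 3 := h1.out 0 3
    tfae_have 1 ↔ 4 := h1.out 0 1
    tfae_finish

/-- **Theorem.** For all sets `I i` of variables the property `Good` holds for ALL tuples of monomials near almost all members of
the families with small Fourier coefficients (`NearMost`); for all `R`, families of vectors of `R` residues with Fourier
coefficients at most `q ^ (-κ)` have this property for all large `q`, and the families formed from arbitrary sets are such
families (`FlatExamples`). -/
theorem result : (∀ (n s : ℕ) (I : Fin s → Finset (Fin (n + 1))), NearMost I (Good I)) ∧ ∀ R : ℕ, FlatExamples R :=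
  ⟨fun _ _ _ => nearMost_typI fun _ _ h => good_of_typ h, flatExamples⟩

end Pool.Agent.Results.MP_b9fedf_ag.ArbitrarySets
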