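import Mathlib
import Pool.Agent.U178.GG.Cov
import Pool.Agent.V1153.UG.Six
import Pool.Agent.V1153.UG.UnfC
import Pool.Agent.Y377.IL.AllC

/-!
# The Green-Griffiths-Lang conjecture for entire curves of bounded complexity

We consider the entire curves in a complex projective variety `X` whose homogeneous coordinates are
given by iterated linear differential equations, with a bound for the number and the size of the
systems and for the degrees: the curves of complexity at most `(s, r, e, δ)`, for instance the curves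
whose homogeneous coordinates satisfy linear differential equations of order at most `r` whose
coefficients are polynomials of degree at most `δ`.

If `X` is of general type, or has a nonzero pluricanonical form, or is only not covered by rational
curves, then for each `(s, r, e, δ)` all nonconstant entire curves of complexity at most
`(s, r, e, δ)` lie in *one* proper closed subset of `X`; this is equivalent to `X` not being covered
by rational curves. Moreover which closed subsets contain these entire curves is decided by the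
rational curves of degree at most `N` in `X`, where `N` depends only on the complexity, the dimension
of the projective space, and the degrees of the equations.
-/

set_option autoImplicit false

namespace Pool.Agent.Results.MP_b9fedf_ag.BoundedComplexity

open MvPolynomial Pool.Agent.V1153.UG
open Pool.Agent.W602.GT (GeneralType)
open Pool.Agent.TH143.GT (FunField Covered Pluricanonical)

variable {n : ℕ}

/-- `f` is the vector of entire homogeneous coordinates, without common zeros, of a nonconstant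
entire curve in the projective algebraic set `X` on which the forms in `I` vanish. -/
structure EntireCurve (I : Ideal (MvPolynomial (Fin (n + 1)) ℂ)) (f : ℂ → Fin (n + 1) → ℂ) :
    Prop where
  diff : ∀ j, Differentiable ℂ fun z => f z j
  ne : ∀ z, f z ≠ 0
  mem : ∀ z, ∀ F ∈ I, (∃ m, F.IsHomogeneous m) → eval (f z) F = 0
  nc : ∃ z w j k, f z j * f w k ≠ f z k * f w j

/-- `P` is the vector of homogeneous coordinates, polynomials of degree at most `N`, of a nonconstant
rational curve in `X`. -/
structure RationalCurve (I : Ideal (MvPolynomial (Fin (n + 1)) ℂ)) (N : ℕ)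
    (P : Fin (n + 1) → Polynomial ℂ) : Prop where
  deg : ∀ j, (P j).natDegree ≤ N
  mem : ∀ F ∈ I, (∃ m, F.IsHomogeneous m) → aeval P F = 0
  nc : ∃ s t j k, (P j).eval s * (P k).eval t ≠ (P k).eval s * (P j).eval t

/-- The holomorphic map with the homogeneous coordinates `g` is of complexity at most
`(s, r, e, δ)`: on some nonempty open subset `U` of its domain `S` there are a polynomial `q` of degree
at most `δ` without zeros in `U`, vector functions `y_1, ..., y_s` of length `r` such that
`y_l' = A_l y_l`, where the entries of the matrix `A_l` are polynomials of degree at most `e` in each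
of the variables `z`, `1 / q(z)` and the entries of `y_i`, `i < l` (this is
`IterSys s r e δ U q y`), and a function `u` without zeros in `U` such that the `u g_j` are polynomials
of degree at most `e` in each of the variables `z`, `1 / q(z)` and the entries of
`y_1, ..., y_s`. -/
def Complexity (S : Set ℂ) (s r e δ : ℕ) (g : ℂ → Fin (n + 1) → ℂ) : Prop :=
  ∃ (U : Set ℂ) (q : Polynomial ℂ) (y : Fin s → Fin r → ℂ → ℂ) (u : ℂ → ℂ), IsOpen U ∧
    U.Nonempty ∧ U ⊆ S ∧ IterSys s r e δ U q y ∧ (∀ z ∈ U, u z ≠ 0) ∧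
    ∀ j, ∃ c : (Vx s r → Fin (e + 1)) → ℂ, ∀ z ∈ U,
      u z * g z j = pev c (vec z (q.eval z)⁻¹ fun l a => y l a z)

/-- The function `f` satisfies a nontrivial linear differential equation of order at most `r` whose
coefficients are polynomials of degree at most `δ`. -/
def LinearODE (r δ : ℕ) (f : ℂ → ℂ) : Prop :=
  ∃ a : Fin (r + 1) → Polynomial ℂ, (∃ k, a k ≠ 0) ∧ (∀ k, (a k).natDegree ≤ δ) ∧
    ∀ z, ∑ k, (a k).eval z * iteratedDeriv (k : ℕ) f z = 0

/-- the punctured disc -/
def puncturedDisc : Set ℂ := {z | z ≠ 0 ∧ ‖z‖ < 1}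

/-- `f` is the vector of holomorphic homogeneous coordinates, without common zeros, of a map from the
punctured disc to `X`. -/
structure DiscMap (I : Ideal (MvPolynomial (Fin (n + 1)) ℂ)) (f : ℂ → Fin (n + 1) → ℂ) : Prop where
  diff : ∀ j, DifferentiableOn ℂ (fun z => f z j) puncturedDisc
  ne : ∀ z ∈ puncturedDisc, f z ≠ 0
  mem : ∀ z ∈ puncturedDisc, ∀ F ∈ I, (∃ m, F.IsHomogeneous m) → eval (f z) F = 0

/-- The holomorphic map from the punctured disc to the projective space with the homogeneous
coordinates `f` extends to a holomorphic map from the disc to the projective space. -/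
def ExtendsOver (f : ℂ → Fin (n + 1) → ℂ) : Prop :=
  ∃ g : ℂ → Fin (n + 1) → ℂ, DifferentiableOn ℂ g (Metric.ball 0 1) ∧
    (∀ w ∈ Metric.ball (0 : ℂ) 1, g w ≠ 0) ∧
    ∀ w ∈ Metric.ball (0 : ℂ) 1 \ {0}, ∃ c : ℂ, f w = c • g w

/-- `X` is pseudo-Brody hyperbolic: all nonconstant entire curves in `X` lie in one proper closed
subset. -/
def PseudoBrodyHyperbolic (I : Ideal (MvPolynomial (Fin (n + 1)) ℂ)) : Prop :=
  ∃ G : MvPolynomial (Fin (n + 1)) ℂ, (∃ m, G.IsHomogeneous m) ∧ G ∉ I ∧
    ∀ f, EntireCurve I f → ∀ z, eval (f z) G = 0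

theorem curve_iff {I : Ideal (MvPolynomial (Fin (n + 1)) ℂ)} {f : ℂ → Fin (n + 1) → ℂ} :
    Curve I 1 f ↔ EntireCurve I f :=
  ⟨fun h => ⟨h.diff, h.ne, h.mem, h.nc⟩, fun h => ⟨h.diff, h.ne, h.mem, fun z => by
    rw [map_one]
    exact one_ne_zero, h.nc⟩⟩

theorem gm_iff {I : Ideal (MvPolynomial (Fin (n + 1)) ℂ)} {N : ℕ}
    {P : Fin (n + 1) → Polynomial ℂ} : GmBdd I 1 N P ↔ RationalCurve I N P :=
  ⟨fun h => ⟨h.deg, h.mem, h.nc⟩, fun h => ⟨h.deg, h.mem, ⟨1, 0, one_ne_zero, by simp⟩, h.nc⟩⟩

theorem dcurve_iff {I : Ideal (MvPolynomial (Fin (n + 1)) ℂ)} {f : ℂ → Fin (n + 1) → ℂ} :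
    DCurve I 1 f ↔ DiscMap I f :=
  ⟨fun h => ⟨h.diff, h.ne, h.mem⟩, fun h => ⟨h.diff, h.ne, h.mem, fun z _ => by
    rw [map_one]
    exact one_ne_zero⟩⟩

theorem pev_one {ι : Type} [Fintype ι] [DecidableEq ι] (e : ℕ) :
    ∃ c : (ι → Fin (e + 1)) → ℂ, ∀ v, pev c v = 1 := by
  obtain ⟨c, hc⟩ := poly_toPev (ι := ι) (e := e) 1 fun i => by
    rw [degreeOf_one]
    exact Nat.zero_le _
  exact ⟨c, fun v => by rw [hc, map_one]⟩

theorem bdd_iff {S : Set ℂ} {s r e δ : ℕ} {f : ℂ → Fin (n + 1) → ℂ} :
    Bdd S 1 s r e δ f ↔ Complexity S s r e δ f := by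
  constructor
  · rintro ⟨U, q, y, u, hU, hUn, hUS, hs, hu, hc, -⟩
    exact ⟨U, q, y, u, hU, hUn, hUS, hs, hu, hc⟩
  · rintro ⟨U, q, y, u, hU, hUn, hUS, hs, hu, hc⟩
    obtain ⟨c, hc1⟩ := pev_one (ι := Vx s r) e
    exact ⟨U, q, y, u, hU, hUn, hUS, hs, hu, hc, c, fun z _ => by
      rw [hc1, map_one, one_mul]⟩

theorem van_iff {I : Ideal (MvPolynomial (Fin (n + 1)) ℂ)} {N : ℕ}
    {G : MvPolynomial (Fin (n + 1)) ℂ} :
    VanGm I 1 N G ↔ ∀ P, RationalCurve I N P → ∀ t, eval (fun j => (P j).eval t) G = 0 :=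
  ⟨fun h P hP t => h P (gm_iff.2 hP) t, fun h P hP t => h P (gm_iff.1 hP) t⟩

/-- (1) Let `X` be an irreducible projective variety, with the prime ideal `I`, the function field `K`,
the generic point `y` and the dimension `w`. The following are equivalent.

* `X` is not covered by rational curves.
* For each `N` all nonconstant rational curves of degree at most `N` in `X` lie in one proper closed
  subset.
* For all `r`, `δ` all nonconstant entire curves in `X` whose homogeneous coordinates satisfy linear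
  differential equations of order at most `r` with polynomial coefficients of degree at most `δ` lie in
  one proper closed subset.
* For all `s`, `r`, `e`, `δ` all nonconstant entire curves of complexity at most `(s, r, e, δ)` in `X`
  lie in one proper closed subset.
* For all `s`, `r`, `e`, `δ` the holomorphic maps of complexity at most `(s, r, e, δ)` from the
  punctured disc to `X` extend over the puncture unless they lie in one proper closed subset.

(2) These properties hold if `X` is of general type, if `X` has a nonzero pluricanonical form, and if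
`X` is pseudo-Brody hyperbolic.

(3) For all `n`, `D` and `s`, `r`, `e`, `δ` there is a number `N` such that for all (reducible or
irreducible) closed subsets `X` and `Z` of the projective space of dimension `n` which are given by
forms of degree at most `D`: if all nonconstant rational curves of degree at most `N` in `X` lie in
`Z`, then all nonconstant entire curves of complexity at most `(s, r, e, δ)` in `X` lie in `Z`. In
particular, if there are no nonconstant rational curves of degree at most `N` in `X` then all entire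
curves of complexity at most `(s, r, e, δ)` in `X` are constant.

(4) Conversely, if all nonconstant entire curves in `X` whose homogeneous coordinates satisfy linear
differential equations of order at most `N + 1` with constant coefficients lie in `Z`, then so do
all nonconstant rational curves of degree at most `N` in `X`. -/
theorem result :
    (∀ (n : ℕ) (I : Ideal (MvPolynomial (Fin (n + 1)) ℂ)), I.IsPrime → ∀ (K : Type) [Field K]
      [Algebra ℂ K] (w : ℕ) (y : Fin (n + 1) → K), FunField I 1 K w y →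
      List.TFAE [¬ Covered K,
        ∀ N : ℕ, ∃ G : MvPolynomial (Fin (n + 1)) ℂ, (∃ m, G.IsHomogeneous m) ∧ G ∉ I ∧
          ∀ P, RationalCurve I N P → ∀ t, eval (fun j => (P j).eval t) G = 0,
        ∀ r δ : ℕ, ∃ G : MvPolynomial (Fin (n + 1)) ℂ, (∃ m, G.IsHomogeneous m) ∧ G ∉ I ∧
          ∀ f, EntireCurve I f → (∀ j, LinearODE r δ fun z => f z j) → ∀ z, eval (f z) G = 0,
        ∀ s r e δ : ℕ, ∃ G : MvPolynomial (Fin (n + 1)) ℂ, (∃ m, G.IsHomogeneous m) ∧ G ∉ I ∧
          ∀ f, EntireCurve I f → Complexity Set.univ s r e δ f → ∀ z, eval (f z) G = 0,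
        ∀ s r e δ : ℕ, ∃ G : MvPolynomial (Fin (n + 1)) ℂ, (∃ m, G.IsHomogeneous m) ∧ G ∉ I ∧
          ∀ f, DiscMap I f → Complexity puncturedDisc s r e δ f →
            (∀ z ∈ puncturedDisc, eval (f z) G = 0) ∨ ExtendsOver f] ∧
      (GeneralType ℂ K w → ¬ Covered K) ∧
      ((∃ N, 0 < N ∧ ∃ ω : (Fin w → Derivation ℂ K K) → K, Pluricanonical w N ω ∧ ω ≠ 0) →
        ¬ Covered K) ∧
      (PseudoBrodyHyperbolic I → ¬ Covered K)) ∧
    (∀ n D s r e δ : ℕ, ∃ N : ℕ, ∀ E : Set (MvPolynomial (Fin (n + 1)) ℂ),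
      (∀ F ∈ E, ∃ a ≤ D, F.IsHomogeneous a) →
      (∀ Z : Set (MvPolynomial (Fin (n + 1)) ℂ), (∀ G ∈ Z, ∃ a ≤ D, G.IsHomogeneous a) →
        (∀ P, RationalCurve (Ideal.span E) N P → ∀ G ∈ Z, ∀ t,
          eval (fun j => (P j).eval t) G = 0) →
        ∀ f, EntireCurve (Ideal.span E) f → Complexity Set.univ s r e δ f →
          ∀ G ∈ Z, ∀ z, eval (f z) G = 0) ∧
      ((∀ P, ¬ RationalCurve (Ideal.span E) N P) →
        ∀ f, EntireCurve (Ideal.span E) f → ¬ Complexity Set.univ s r e δ f)) ∧
    (∀ (n : ℕ) (I : Ideal (MvPolynomial (Fin (n + 1)) ℂ)) (N : ℕ)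
      (Z : Set (MvPolynomial (Fin (n + 1)) ℂ)), (∀ G ∈ Z, ∃ m, G.IsHomogeneous m) →
      (∀ f, EntireCurve I f → (∀ j, LinearODE (N + 1) 0 fun z => f z j) →
        ∀ G ∈ Z, ∀ z, eval (f z) G = 0) →
      ∀ P, RationalCurve I N P → ∀ G ∈ Z, ∀ t, eval (fun j => (P j).eval t) G = 0) := by
  refine ⟨fun n I hI K _ _ w y hy => ?_, fun n D s r e δ => ?_, fun n I N Z hZ h P hP G hG t => ?_⟩
  · have hcov : Covered K ↔ GmRuled I 1 :=
      ⟨Pool.Agent.U178.GG.ruled_of_covered hy, Pool.Agent.U178.GG.covered_of_ruled hy⟩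
    have h6 := six hI (isHomogeneous_one (Fin (n + 1)) ℂ)
    have h12 : (¬ Covered K) ↔ GmThin I 1 := by
      rw [hcov]
      exact h6.out 0 1
    have h23 : GmThin I 1 ↔ DFinThin I 1 := h6.out 1 2
    have h24 : GmThin I 1 ↔ EntireThin I 1 := h6.out 1 3
    have h25 : GmThin I 1 ↔ DiscThin I 1 := h6.out 1 4
    have e1 : GmThin I 1 ↔ ∀ N : ℕ, ∃ G : MvPolynomial (Fin (n + 1)) ℂ,
        (∃ m, G.IsHomogeneous m) ∧ G ∉ I ∧
          ∀ P, RationalCurve I N P → ∀ t, eval (fun j => (P j).eval t) G = 0 := by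
      simp only [← gm_iff]
      exact Iff.rfl
    have e2 : DFinThin I 1 ↔ ∀ r δ : ℕ, ∃ G : MvPolynomial (Fin (n + 1)) ℂ,
        (∃ m, G.IsHomogeneous m) ∧ G ∉ I ∧
          ∀ f, EntireCurve I f → (∀ j, LinearODE r δ fun z => f z j) →
            ∀ z, eval (f z) G = 0 := by
      simp only [← curve_iff]
      exact Iff.rfl
    have e3 : EntireThin I 1 ↔ ∀ s r e δ : ℕ, ∃ G : MvPolynomial (Fin (n + 1)) ℂ,
        (∃ m, G.IsHomogeneous m) ∧ G ∉ I ∧
          ∀ f, EntireCurve I f → Complexity Set.univ s r e δ f → ∀ z, eval (f z) G = 0 := by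
      simp only [← curve_iff, ← bdd_iff]
      exact Iff.rfl
    have e4 : DiscThin I 1 ↔ ∀ s r e δ : ℕ, ∃ G : MvPolynomial (Fin (n + 1)) ℂ,
        (∃ m, G.IsHomogeneous m) ∧ G ∉ I ∧
          ∀ f, DiscMap I f → Complexity puncturedDisc s r e δ f →
            (∀ z ∈ puncturedDisc, eval (f z) G = 0) ∨ ExtendsOver f := by
      simp only [← dcurve_iff, ← bdd_iff]
      exact Iff.rfl
    rw [← e1, ← e2, ← e3, ← e4]
    refine ⟨?_, fun hg hc => ?_, fun ⟨N, hN, ω, hω, h0⟩ hc => ?_, fun hb => ?_⟩
    · tfae_have 1 ↔ 2 := h12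
      tfae_have 2 ↔ 3 := h23
      tfae_have 2 ↔ 4 := h24
      tfae_have 2 ↔ 5 := h25
      tfae_finish
    · obtain ⟨N, hN, ω, hω, h0⟩ := Pool.Agent.Y377.IL.form_of_gt hg
      exact h0 (Pool.Agent.U178.GG.pluri_of_ruled hy (hcov.1 hc) N hN ω hω)
    · exact h0 (Pool.Agent.U178.GG.pluri_of_ruled hy (hcov.1 hc) N hN ω hω)
    · rw [h12, h23]
      obtain ⟨G, h1, h2, h3⟩ := hb
      exact fun r δ => ⟨G, h1, h2, fun f hf _ => h3 f (curve_iff.1 hf)⟩
  · obtain ⟨N, hN⟩ := family n D s r e δ
    obtain ⟨N', hN'⟩ := fam_none n D s r e δ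
    refine ⟨max N N', fun E hE => ⟨fun Z hZ hv f hf hc G hG => ?_, fun hno f hf hc => ?_⟩⟩
    · obtain ⟨h1, -, -⟩ := hN E 1 G hE ⟨0, Nat.zero_le _, isHomogeneous_one _ _⟩ (hZ G hG)
        (van_iff.2 fun P hP t => hv P ⟨fun j => (hP.deg j).trans (le_max_left _ _), hP.mem,
          hP.nc⟩ G hG t)
      exact h1 f (curve_iff.2 hf) (bdd_iff.2 hc)
    · obtain ⟨h1, -, -⟩ := hN' E 1 ⟨hE, ⟨0, Nat.zero_le _, isHomogeneous_one _ _⟩⟩ (fun P hP => by
        have h2 := gm_iff.1 hP
        exact hno P ⟨fun j => (h2.deg j).trans (le_max_right _ _), h2.mem, h2.nc⟩)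
      exact h1 f (curve_iff.2 hf) (bdd_iff.2 hc)
  · exact van_iff.1 (van_of_dfin (isHomogeneous_one _ _) (hZ G hG)
      fun f hf hd z => h f (curve_iff.1 hf) hd G hG z) P hP t

end Pool.Agent.Results.MP_b9fedf_ag.BoundedComplexity
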