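import Mathlib
import Pool.Agent.U742.ET.Br

/-!
# Maps from complex tori and entire curves for the closed subsets of power value varieties

Let `m ≥ 2`, let `a 0, ..., a N` be distinct complex numbers, `4 n + (n + 1)² < 2 (N + 1)`, and let
`X = PowVal a n m` be the (cone over the) smooth complete intersection in `P^N` of the vectors `x` for
which there is a polynomial `H` of degree at most `n` with `x i ^ m = H (a i)` for all `i` (for `m = 2`
and `n = 2` these are the surfaces of Büchi). It has dimension `n`, and contains linear subspaces of
all dimensions `e ≤ n / m`.

The Green-Griffiths-Lang conjecture says that a projective variety `V` without nonconstant maps from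
complex tori is Brody hyperbolic. Here it is proved for ALL closed subsets `V = {F = 0}` of `X` if
`n < 3 m`, and for all `n` for those `V` such that the subvarieties of `V` of dimension `w ≥ 2` with
`(w + 1) m ≤ n` which are contained in a linear subspace of `X` are linear (`NoBig`). For instance it
is enough that `V` has dimension at most two and that no irreducible component of `V` of dimension
two is a surface of degree at least two in a linear subspace of `X`. The set `V` is arbitrary
otherwise: it may be singular or contain planes, and it may contain plane curves of genus at most
one, which are not in the lines of `X`.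

* `KobayashiHyperbolic (Cone F)`, `BrodyHyp (Cone F)`: `V` is Kobayashi hyperbolic, Brody hyperbolic;
* `TorusRigid F`, `EllipticRigid F`: the holomorphic maps from complex tori, from complex tori of
  dimension one, to `V` are constant;
* `EntireIn I I'`: every nonconstant holomorphic map from the complex plane to the projective
  algebraic set `V(I)` of the homogeneous ideal `I` has its image in `V(I')`;
* `TorusMapsIn I I'`: every nonconstant holomorphic map from a complex torus of dimension one to
  `V(I)` has its image in `V(I')`;
* `RatCurvesIn (RingHom.id ℂ) I I'`, `EllIn (RingHom.id ℂ) I I'`: every nonconstant morphism from the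
  projective line, from an elliptic curve, to `V(I)` has its image in `V(I')`.

For all closed subsets `V' = V(I')` the last three kinds of statements are equivalent. So the
entire curves in `V` are contained in the Zariski closure of the union of the images of the maps from
elliptic curves and from the line.

The proof. The Zariski closure `Z` of an entire curve in `V` carries, by the theorem of
`Pool.Agent.TH143.GT` on the logarithmic derivative of pluricanonical forms, no big pluricanonical
forms, nor do the images of its ramified coverings; it follows that `Z` is contained in a linear
subspace of `X` of dimension `e` with `e m ≤ n`, and that it is linear if `n < (dim Z + 1) m`. If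
`dim Z ≤ 1` then `Z` is a rational or an elliptic curve; if `dim Z ≥ 2` then `Z` is linear, so it is
the union of its lines.
-/

set_option autoImplicit false

namespace Pool.Agent.Results.MP_b9fedf_ag.PowerValueTori

open MvPolynomial Pool.Agent.U742.ET
open Pool.Agent.W602.GT (IsForm Cone)
open Pool.Agent.Y190.BV (PowVal)
open Pool.Agent.TH143.EL (TorusMapsIn)
open Pool.Agent.TH143.HE (RatCurvesIn)
open Pool.Agent.Y719.LC (EllIn)
open Pool.Agent.N154.TB (BrodyHyp)
open Pool.Agent.TH182.TC (EllipticRigid TorusRigid)

/-- **Maps from complex tori and entire curves for the closed subsets of power value varieties** -/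
theorem result {N n m : ℕ} (hm : 2 ≤ m) (hN : 4 * n + (n + 1) ^ 2 < 2 * (N + 1))
    {a : Fin (N + 1) → ℂ} (ha : Function.Injective a) {ι : Type}
    (F : ι → MvPolynomial (Fin (N + 1)) ℂ) (hF : ∀ e, IsForm (F e))
    (hV : Cone F ⊆ PowVal a n m) :
    (n < 3 * m → NoBig a n m F) ∧
    (NoBig a n m F →
      [KobayashiHyperbolic (Cone F), BrodyHyp (Cone F), TorusRigid F, EllipticRigid F].TFAE ∧
      ∀ I' : Ideal (MvPolynomial (Fin (N + 1)) ℂ),
        [EntireIn (Ideal.span (Set.range F)) I', TorusMapsIn (Ideal.span (Set.range F)) I',
          RatCurvesIn (RingHom.id ℂ) (Ideal.span (Set.range F)) I' ∧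
            EllIn (RingHom.id ℂ) (Ideal.span (Set.range F)) I'].TFAE) :=
  ⟨noBig_of_lt, fun hB => ⟨hyp_tfae hm hN ha hF hV hB, main hm hN ha hF hV hB⟩⟩

end Pool.Agent.Results.MP_b9fedf_ag.PowerValueTori
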