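import Mathlib
import Pool.Agent.U647.ET.Core

/-!
# The Green-Griffiths-Lang conjecture for surfaces with an irregular unramified covering

(1) Let `X' → X` be an unramified covering of projective sets (of any dimension). If the question Q1
has a positive answer for `X'`, then it has a positive answer for `X`: if every holomorphic map from
a one-dimensional complex torus to `X` is constant, then every holomorphic map from the complex plane
to `X` is constant.

(2) Let `X` be a smooth projective surface with an unramified covering `X' → X` by a smooth
projective surface of general type which is irregular: it has a nonconstant holomorphic map to a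
complex torus of any dimension (`TorusMap`), or it has regular symmetric differentials without a
common direction, or a regular symmetric differential of the form `h da₁ ⋯ da_d`. Then the following
are equivalent:

* every holomorphic map from a complex torus of dimension one to `X` is constant,
* every holomorphic map from a complex torus of any dimension to `X` is constant,
* every holomorphic map from the complex plane to `X` is constant,
* `X` is Kobayashi hyperbolic,
* every holomorphic map from a complex torus of dimension one to `X'` is constant;

and if they are satisfied then the Kobayashi distance of `X` is bounded below by a multiple of a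
projective distance, and all holomorphic maps from the punctured disc to `X` extend to the disc.

The surface `X` itself may have no 1-forms and no symmetric differentials. For `X = X'` the
equivalences are in `MP_45e720_ag.IrregularSurfaces`.

Proof. The covering is a proper local homeomorphism, so a covering map of topological spaces, and
entire curves lift (`Pool.Agent.U647.ET.lift`); for `X'` see `Pool.Agent.U647.IS`: by Kodaira's lemma
there is a section of a power of the canonical bundle twisted by `O(-1)`, and the theorem
`brody_geoS` of `Pool.Agent.N154.TB` (helper154) on Brody curves over complex tori applies.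
-/

set_option autoImplicit false

namespace Pool.Agent.Results.MP_b9fedf_ag.VirtuallyIrregularSurfaces

open MvPolynomial Pool.Agent.U647.IS Pool.Agent.U647.ET
open Pool.Agent.W602.GT (IsForm Cone GeneralType)
open Pool.Agent.N155 (SmoothSurface)
open Pool.Agent.N154.TB (BrodyHyp)
open Pool.Agent.N154.GG (kobayashi projDist PunctIn Extends)
open Pool.Agent.TH182.TC (EllipticRigid TorusRigid)
open scoped LinearAlgebra.Projectivization

variable {n n' : ℕ} {ι ι' : Type}

/-- The Kobayashi pseudodistance of the projective set with the cone `X` is a distance. -/
def KobayashiHyperbolic (X : Set (Fin (n + 1) → ℂ)) : Prop :=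
  ∀ p q : ℙ ℂ (Fin (n + 1) → ℂ), p.rep ∈ X → q.rep ∈ X → p ≠ q → 0 < kobayashi X p q

/-- The question Q1 for `X = {F = 0}`: if every holomorphic map from a one-dimensional complex torus
to `X` is constant, then every holomorphic map from the complex plane to `X` is constant. -/
def Q1 (F : ι → MvPolynomial (Fin (n + 1)) ℂ) : Prop := EllipticRigid F → BrodyHyp (Cone F)

/-- **The Green-Griffiths-Lang conjecture for surfaces with an irregular unramified covering** -/
theorem result (F : ι → MvPolynomial (Fin (n + 1)) ℂ) (hF : ∀ i, IsForm (F i))
    (F' : ι' → MvPolynomial (Fin (n' + 1)) ℂ) (hF' : ∀ i, IsForm (F' i))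
    (π : ℙ ℂ (Fin (n' + 1) → ℂ) → ℙ ℂ (Fin (n + 1) → ℂ)) (hπ : Covering (Cone F') (Cone F) π) :
    (Q1 F' → Q1 F) ∧
    ∀ {K : Type} [Field K] [Algebra ℂ K] (y : Fin (n' + 1) → K), SmoothSurface F' y →
      GeneralType ℂ K 2 → (TorusMap F' y ∨ NoDirection K ∨ ProductDifferential K) →
      [EllipticRigid F, TorusRigid F, BrodyHyp (Cone F), KobayashiHyperbolic (Cone F),
        EllipticRigid F'].TFAE ∧
      (EllipticRigid F →
        (∃ c : ℝ, 0 < c ∧ ∀ p q : ℙ ℂ (Fin (n + 1) → ℂ), p.rep ∈ Cone F → q.rep ∈ Cone F →
          ENNReal.ofReal (c * min 1 (projDist p q)) ≤ kobayashi (Cone F) p q) ∧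
        ∀ f, PunctIn F f → Extends F f) := by
  have hdown : BrodyHyp (Cone F') → BrodyHyp (Cone F) := brody_down hF hF' hπ
  have hup : EllipticRigid F → EllipticRigid F' := rigid_up hF' hπ
  refine ⟨fun h1 h2 => hdown (h1 (hup h2)), fun {K} _ _ y hX hgt hD => ?_⟩
  have hD' : TorusMap F' y ∨ EllipticMap K ∨ NoDirection K ∨ ProductDifferential K := by
    rcases hD with h | h | h
    · exact Or.inl h
    · exact Or.inr (Or.inr (Or.inl h))
    · exact Or.inr (Or.inr (Or.inr h))
  have h53 : EllipticRigid F' → BrodyHyp (Cone F) := fun h =>
    hdown (brody_of_all hX (allSub_of_torus hX hgt h) hD')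
  have h34 : BrodyHyp (Cone F) → KobayashiHyperbolic (Cone F) :=
    fun hB p q hp hq hpq => kob_of_brody hF hB hp hq hpq
  have h43 : KobayashiHyperbolic (Cone F) → BrodyHyp (Cone F) := brody_of_kob
  have h32 : BrodyHyp (Cone F) → TorusRigid F := torusRigid_of_brody
  have h21 : TorusRigid F → EllipticRigid F := fun h => h.elliptic
  refine ⟨?_, fun h => geo_of_brody hF (h53 (hup h))⟩
  tfae_have 1 → 5 := hup
  tfae_have 5 → 3 := h53
  tfae_have 3 → 2 := h32
  tfae_have 2 → 1 := h21
  tfae_have 3 → 4 := h34
  tfae_have 4 → 3 := h43
  tfae_finish

end Pool.Agent.Results.MP_b9fedf_ag.VirtuallyIrregularSurfaces
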